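import Mathlib
import Pool.Agent.H113Z.Dist.Defs

namespace Pool.Agent.H113Z.Dist
open Filter Topology Set

namespace ConvAux

lemma loc_inv (f : ℝ → ℝ) (c : ℝ) (hc : c ≠ 0) (hf : ContDiffAt ℝ 2 f 0) (hd : HasDerivAt f c 0)
    (h0 : f 0 = 0) :
    ∃ k : ℝ → ℝ, ContDiffAt ℝ 2 k 0 ∧ k 0 = 0 ∧ (f ∘ k =ᶠ[𝓝 0] id) ∧ (k ∘ f =ᶠ[𝓝 0] id) ∧
      ∀ h : ℝ → ℝ, (h ∘ f =ᶠ[𝓝 0] id) → ContDiffAt ℝ 2 h 0 := by
  have hd' := hd.hasFDerivAt_equiv hc
  have hn : (2 : WithTop ℕ∞) ≠ 0 := by norm_num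
  have h1 := hf.to_localInverse hd' hn
  have h2 := hf.localInverse_apply_image hd' hn
  have hs := hf.hasStrictFDerivAt' hd' hn
  have h3 := hs.eventually_left_inverse
  have h4 := hs.eventually_right_inverse
  rw [h0] at h1 h2 h4
  refine ⟨hf.localInverse hd' hn, h1, h2, h4, h3, fun h hh => ?_⟩
  have h5 := hs.localInverse_unique (g := h) hh
  rw [h0] at h5
  exact h1.congr_of_eventuallyEq h5

lemma ev_nhds {P : ℝ → Prop} (h : ∀ᶠ y in atTop, P y) :
    ∀ᶠ x in 𝓝 (0 : ℝ), (0 < x → P (1 / x)) ∧ (x < 0 → P (-1 / x)) := by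
  obtain ⟨Y, hY⟩ := eventually_atTop.1 h
  have hM : 0 < max Y 1 := lt_max_of_lt_right one_pos
  filter_upwards [Ioo_mem_nhds (neg_lt_zero.2 (one_div_pos.2 hM)) (one_div_pos.2 hM)] with x hx
  refine ⟨fun h0 => hY _ ((le_max_left Y 1).trans ?_), fun h0 => hY _ ((le_max_left Y 1).trans ?_)⟩
  · exact (le_one_div h0 hM).1 hx.2.le
  · have h1 : 0 < -x := neg_pos.2 h0
    have h2 : -x ≤ 1 / max Y 1 := by linarith [hx.1]
    have := (le_one_div h1 hM).1 h2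
    rwa [show -1 / x = 1 / -x by rw [neg_div, div_neg]]

lemma xm_congr {F F' G G' : ℝ → ℝ} (h1 : ∀ᶠ y in atTop, F y = F' y)
    (h2 : ∀ᶠ y in atTop, G y = G' y) : xm F G =ᶠ[𝓝 0] xm F' G' := by
  filter_upwards [ev_nhds h1, ev_nhds h2] with x e1 e2
  unfold xm
  split_ifs with p q
  · rw [e1.1 p]
  · rw [e2.2 q]
  · rfl

lemma xm_comp (F G : ℝ → ℝ) {F' G' : ℝ → ℝ} (h1 : ∀ᶠ y in atTop, 0 < F' y)
    (h2 : ∀ᶠ y in atTop, 0 < G' y) :
    xm (F ∘ F') (G ∘ G') =ᶠ[𝓝 0] xm F G ∘ xm F' G' := by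
  filter_upwards [ev_nhds h1, ev_nhds h2] with x e1 e2
  rcases lt_trichotomy x 0 with h | h | h
  · have p := e2.2 h
    have q : -1 / G' (-1 / x) < 0 := div_neg_of_neg_of_pos (by norm_num) p
    have r : -1 / (-1 / G' (-1 / x)) = G' (-1 / x) := by field_simp
    simp only [xm, Function.comp, not_lt.2 h.le, h, if_true, if_false, not_lt.2 q.le, q, r]
  · subst h; simp [xm]
  · have p := e1.1 h
    have q : 0 < 1 / F' (1 / x) := one_div_pos.2 p
    simp only [xm, Function.comp, h, if_true, q, one_div_one_div]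

lemma xm_id : xm id id = id := by
  funext x
  unfold xm
  split_ifs with p q
  · simp
  · have := q.ne
    simp only [id]; field_simp
  · simp only [id]; exact le_antisymm (not_lt.1 q) (not_lt.1 p)

lemma xm_zero (F G : ℝ → ℝ) : xm F G 0 = 0 := by simp [xm]

lemma pos_of_mono {F : Pm} (h : StrictMono F) : ∀ᶠ y in atTop, 0 < F y := by
  filter_upwards [eventually_gt_atTop (F⁻¹ 0)] with y hy
  simpa using h hy

lemma mono_inv {F : Pm} (h : StrictMono F) : StrictMono (⇑F⁻¹) := by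
  intro a b hab
  by_contra hc
  have := h.monotone (not_lt.1 hc)
  simp only [Equiv.Perm.coe_inv, Equiv.apply_symm_apply] at this
  exact absurd hab (not_lt.2 this)

lemma xm_inv {F G : Pm} (hF : StrictMono F) (hG : StrictMono G) :
    xm (⇑F⁻¹) (⇑G⁻¹) ∘ xm F G =ᶠ[𝓝 0] id := by
  refine (xm_comp _ _ (pos_of_mono hF) (pos_of_mono hG)).symm.trans ?_
  have e : ∀ H : Pm, (⇑H⁻¹) ∘ H = id := fun H => by funext y; simp
  rw [e, e, xm_id]

lemma ev_cons {ι : Type} (γ : ι → Pm) (p : ι × Bool) (w : List (ι × Bool)) :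
    ev γ (p :: w) = (if p.2 then γ p.1 else (γ p.1)⁻¹) * ev γ w := by
  simp [ev]

lemma ev_mono {ι : Type} (γ : ι → Pm) (h : ∀ k, StrictMono (γ k)) (w : List (ι × Bool)) :
    StrictMono (ev γ w) := by
  induction w with
  | nil => simpa [ev] using strictMono_id
  | cons p w ih =>
    rw [ev_cons, Equiv.Perm.coe_mul]
    refine StrictMono.comp ?_ ih
    split_ifs
    · exact h _
    · exact mono_inv (h _)

noncomputable def letter {ι : Type} (γp γm : ι → Pm) (p : ι × Bool) : ℝ → ℝ :=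
  if p.2 then xm (γp p.1) (γm p.1) else xm (⇑(γp p.1)⁻¹) (⇑(γm p.1)⁻¹)

lemma word_eq {ι : Type} (γp γm : ι → Pm) (hp : ∀ k, StrictMono (γp k))
    (hm : ∀ k, StrictMono (γm k)) (w : List (ι × Bool)) :
    (w.map (letter γp γm)).foldr (fun f g => f ∘ g) id =ᶠ[𝓝 0] xm (ev γp w) (ev γm w) := by
  induction w with
  | nil =>
    have : ∀ γ : ι → Pm, ⇑(ev γ []) = id := fun γ => by simp [ev]
    rw [this, this, xm_id]; rfl
  | cons p w ih =>
    rw [List.map_cons, List.foldr_cons, ev_cons, ev_cons, Equiv.Perm.coe_mul, Equiv.Perm.coe_mul]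
    refine (ih.fun_comp _).trans (EventuallyEq.trans ?_
      (xm_comp _ _ (pos_of_mono (ev_mono γp hp w)) (pos_of_mono (ev_mono γm hm w))).symm)
    unfold letter
    split_ifs <;> rfl

def g0 (x : ℝ) : ℝ := x - x ^ 2

lemma g0_tendsto : Tendsto g0 (𝓝 0) (𝓝 0) := by
  have : Continuous g0 := by unfold g0; fun_prop
  simpa [g0] using this.tendsto 0

lemma g0_iter_tendsto (n : ℕ) : Tendsto g0^[n] (𝓝 0) (𝓝 0) := g0_tendsto.iterate n

lemma xm_gy : xm (gy 1) (gy (-1)) = g0 := by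
  funext x
  unfold xm gy g0
  split_ifs with p q
  · have := p.ne'
    field_simp
  · have := q.ne
    field_simp
    ring
  · have : x = 0 := le_antisymm (not_lt.1 p) (not_lt.1 q)
    simp [this]

lemma gy_pos (a : ℝ) : ∀ᶠ y in atTop, 0 < gy a y := by
  filter_upwards [eventually_gt_atTop (max a 0)] with y hy
  have h1 : 0 < y := (le_max_right _ _).trans_lt hy
  have h2 : 0 < y - a := sub_pos.2 ((le_max_left _ _).trans_lt hy)
  unfold gy; positivity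

lemma xm_iter (n : ℕ) : xm (gy 1)^[n] (gy (-1))^[n] =ᶠ[𝓝 0] g0^[n] := by
  induction n with
  | zero => simp only [Function.iterate_zero, xm_id]; rfl
  | succ n ih =>
    simp only [Function.iterate_succ]
    refine (xm_comp _ _ (gy_pos 1) (gy_pos (-1))).trans ?_
    rw [xm_gy]
    exact ih.comp_tendsto g0_tendsto

lemma foldr_append (u v : List (ℝ → ℝ)) :
    (u ++ v).foldr (fun f g => f ∘ g) id =
      u.foldr (fun f g => f ∘ g) id ∘ v.foldr (fun f g => f ∘ g) id := by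
  induction u with
  | nil => rfl
  | cons f u ih => rw [List.cons_append, List.foldr_cons, ih]; rfl

def Rep (S : Finset (ℝ → ℝ)) (n m : ℕ) : Prop :=
  ∃ u : List (ℝ → ℝ), (∀ f ∈ u, f ∈ S) ∧ u.foldr (fun f g => f ∘ g) id =ᶠ[𝓝 0] g0^[n] ∧
    u.length = m

lemma Rep.zero (S : Finset (ℝ → ℝ)) : Rep S 0 0 :=
  ⟨[], by simp, EventuallyEq.rfl, rfl⟩

lemma Rep.add {S : Finset (ℝ → ℝ)} {a b m m' : ℕ} (h : Rep S a m) (h' : Rep S b m') :
    Rep S (a + b) (m + m') := by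
  obtain ⟨u, h1, h2, h3⟩ := h
  obtain ⟨v, h4, h5, h6⟩ := h'
  refine ⟨u ++ v, fun f hf => ?_, ?_, by simp [h3, h6]⟩
  · rcases List.mem_append.1 hf with h | h
    · exact h1 f h
    · exact h4 f h
  · rw [foldr_append, Function.iterate_add]
    exact (h5.fun_comp _).trans (h2.comp_tendsto (g0_iter_tendsto b))

lemma Rep.mul {S : Finset (ℝ → ℝ)} {a m : ℕ} (h : Rep S a m) (k : ℕ) : Rep S (k * a) (k * m) := by
  induction k with
  | zero => simpa using Rep.zero S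
  | succ k ih => simpa [Nat.succ_mul] using ih.add h

lemma final_of_rep (S : Finset (ℝ → ℝ)) (hg : g0 ∈ S) (ℓ : ℕ → ℕ) (hrep : ∀ i, Rep S (4 ^ i) (ℓ i))
    (hl : Tendsto (fun i => (ℓ i : ℝ) / 4 ^ i) atTop (𝓝 0)) :
    ∃ w : ℕ → List (ℝ → ℝ), (∀ n, ∀ f ∈ w n, f ∈ S) ∧
      (∀ n, (w n).foldr (fun f g => f ∘ g) id =ᶠ[𝓝 0] g0^[n]) ∧
      Tendsto (fun n => ((w n).length : ℝ) / n) atTop (𝓝 0) := by
  classical
  have h1 : Rep S 1 1 := ⟨[g0], by simpa using hg, EventuallyEq.rfl, rfl⟩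
  have hn : ∀ n, Rep S n n := fun n => by simpa using h1.mul n
  have hex : ∀ n, ∃ m, Rep S n m := fun n => ⟨n, hn n⟩
  choose w hw1 hw2 hw3 using fun n => Nat.find_spec (hex n)
  refine ⟨w, hw1, hw2, ?_⟩
  have hle : ∀ i n, (w n).length ≤ n / 4 ^ i * ℓ i + n % 4 ^ i := by
    intro i n
    rw [hw3]
    apply Nat.find_min'
    have := ((hrep i).mul (n / 4 ^ i)).add (hn (n % 4 ^ i))
    rwa [Nat.div_add_mod'] at this
  rw [Metric.tendsto_atTop]
  intro ε hε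
  obtain ⟨i, hi⟩ := (hl.eventually (gt_mem_nhds (half_pos hε))).exists
  obtain ⟨N, hN⟩ := exists_nat_gt (4 ^ i / (ε / 2) : ℝ)
  refine ⟨N, fun n hnN => ?_⟩
  have h4 : (0 : ℝ) < 4 ^ i := by positivity
  have hN' : (4 ^ i / (ε / 2) : ℝ) < n := hN.trans_le (by exact_mod_cast hnN)
  have hn0 : (0 : ℝ) < n := lt_trans (by positivity) hN'
  rw [Real.dist_eq, sub_zero, abs_of_nonneg (by positivity), div_lt_iff₀ hn0]
  have e1 : ((w n).length : ℝ) ≤ ((n / 4 ^ i : ℕ) : ℝ) * ℓ i + ((n % 4 ^ i : ℕ) : ℝ) := by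
    exact_mod_cast hle i n
  have e2 : ((n / 4 ^ i : ℕ) : ℝ) ≤ n / 4 ^ i := by
    have := @Nat.cast_div_le ℝ _ _ _ n (4 ^ i)
    simpa using this
  have e3 : ((n % 4 ^ i : ℕ) : ℝ) ≤ 4 ^ i := by
    have : n % 4 ^ i ≤ 4 ^ i := (Nat.mod_lt _ (by positivity)).le
    exact_mod_cast this
  rw [div_lt_iff₀ (half_pos hε)] at hN'
  have e4 : ((n / 4 ^ i : ℕ) : ℝ) * ℓ i ≤ n * (ε / 2) := by
    calc ((n / 4 ^ i : ℕ) : ℝ) * ℓ i ≤ n / 4 ^ i * ℓ i :=
          mul_le_mul_of_nonneg_right e2 (Nat.cast_nonneg _)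
      _ = n * ((ℓ i : ℝ) / 4 ^ i) := by ring
      _ ≤ n * (ε / 2) := mul_le_mul_of_nonneg_left hi.le hn0.le
  linarith

end ConvAux

open ConvAux in
theorem conv (hX : XmStmt) : ConvStmt := by
  classical
  intro ι _ γp γm l c w hγ hl hp hm
  have hg1 : ContDiffAt ℝ 2 g0 0 := by
    have : ContDiff ℝ 2 g0 := by unfold g0; fun_prop
    exact this.contDiffAt
  have hg2 : HasDerivAt g0 1 0 := by
    have := (hasDerivAt_id (0 : ℝ)).sub (hasDerivAt_pow 2 (0 : ℝ))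
    have e : (1 : ℝ) - ((2 : ℕ) : ℝ) * 0 ^ (2 - 1) = 1 := by norm_num
    rw [e] at this
    exact this
  obtain ⟨ginv, k1, k2, k3, k4, -⟩ := loc_inv g0 1 one_ne_zero hg1 hg2 (by simp [g0])
  let S : Finset (ℝ → ℝ) := insert g0 (insert ginv (Finset.univ.image (letter γp γm)))
  have hgS : g0 ∈ S := by simp [S]
  have hlS : ∀ p, letter γp γm p ∈ S := fun p => by simp [S]
  refine ⟨S, hgS, ?_, final_of_rep S hgS (fun i => (w i).length) (fun i => ?_) hl⟩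
  · intro f hf
    simp only [S, Finset.mem_insert, Finset.mem_image, Finset.mem_univ, true_and] at hf
    rcases hf with rfl | rfl | ⟨⟨k, b⟩, rfl⟩
    · exact ⟨hg1, by simp [g0], ginv, by simp [S], k3, k4⟩
    · exact ⟨k1, k2, g0, hgS, k4, k3⟩
    · obtain ⟨h0, h1, h2, h3, h4⟩ := hγ k
      obtain ⟨x1, x2⟩ := hX _ _ _ _ h0 h3 h4
      have i1 := xm_inv h1 h2
      have i2 := xm_inv (mono_inv h1) (mono_inv h2)
      rw [inv_inv, inv_inv] at i2
      cases b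
      · obtain ⟨-, -, -, -, -, k5⟩ := loc_inv _ (1 / l k) (one_div_pos.2 h0).ne' x1 x2 (xm_zero _ _)
        exact ⟨k5 _ i1, xm_zero _ _, letter γp γm (k, true), hlS _, i1, i2⟩
      · exact ⟨x1, xm_zero _ _, letter γp γm (k, false), hlS _, i2, i1⟩
  · refine ⟨(w i).map (letter γp γm), fun f hf => ?_, ?_, by simp⟩
    · obtain ⟨p, _, rfl⟩ := List.mem_map.1 hf
      exact hlS p
    · exact ((word_eq γp γm (fun k => (hγ k).2.1) (fun k => (hγ k).2.2.1) (w i)).trans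
        (xm_congr (hp i) (hm i))).trans (xm_iter _)

end Pool.Agent.H113Z.Dist
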